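import Pool.Agent.Q279.HT.Lower

/-!
# The sharp constant in the isocapacitary characterisation of the Hardy inequality on trees

`K_p = p ^ p / (p - 1) ^ (p - 1)`.

Upper bound: for `f = I φ` and `t > 0` the function `(min f t / t) ^ (p / (p - 1))` on the vertices
is at least one where `f > t`; its energy bounds the capacity of the level set, and the integral
over `t` of these energies against `p t ^ (p - 1)` is at most `K_p` times the energy of `φ`, by
Hölder's inequality on each edge.  Lower bound: the half line with geometric weights.
-/

open scoped ENNReal NNReal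
open MeasureTheory Set
open Q279.HT Q279.HT.PTree

namespace Pool.Agent.Results.MP_a9eb04_an.SharpConstant

/-- For `1 < p` the number `p ^ p / (p - 1) ^ (p - 1)` is the smallest `K` such that
`[μ] ≤ K [[μ]]_c` for every locally finite tree, every edge weight and every Borel measure `μ`. -/
theorem result {p : ℝ} (hp : 1 < p) :
    IsLeast {K : ℝ≥0∞ | ∀ (T : PTree) (w : T.V → ℝ≥0) (μ : Measure T.Pt),
      hardyConst p w μ ≤ K * isoConst p w μ} (ENNReal.ofReal (p ^ p / (p - 1) ^ (p - 1))) :=
  ⟨fun _ w μ => hardyConst_le hp w μ, fun _ hK => lower hp (hK pathTree)⟩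

end Pool.Agent.Results.MP_a9eb04_an.SharpConstant
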